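import Pool.Agent.H31.CN.T3

/-!
# MOM: the moments of a product
-/

set_option autoImplicit false

namespace Pool.Agent.H3.CN

open Pool.Agent.H31.CN

/-- MOM -/
theorem pf_MOM : T_MOM := by
  intro i j r s
  induction r using GR_induction with
  | h0 => simp
  | hadd r r' hr hr' =>
    rw [add_mul, map_add, hr, hr']
    simp only [map_add, mul_add, add_mul, Finset.sum_add_distrib]
  | hE c x y =>
    induction s using GR_induction with
    | h0 => simp
    | hadd s s' hs hs' =>
      rw [mul_add, map_add, hs, hs']
      simp only [map_add, mul_add, Finset.sum_add_distrib]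
    | hE c' x' y' =>
      rw [smul_mul_smul_comm, E_mul, map_smul, mo_E, smul_eq_mul, add_pow, add_pow,
        Finset.sum_mul_sum, Finset.mul_sum]
      refine Finset.sum_congr rfl fun a _ => ?_
      rw [Finset.mul_sum]
      refine Finset.sum_congr rfl fun b _ => ?_
      rw [map_smul, map_smul, mo_E, mo_E, smul_eq_mul, smul_eq_mul]
      ring

end Pool.Agent.H3.CN
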