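import Pool.Agent.H31.CN.T1
import Pool.Agent.H31.CN.T2

/-!
# QDV: elementary facts on the real form
-/

set_option autoImplicit false

namespace Pool.Agent.H3.CN

open Pool.Agent.H31.CN

lemma qd_nonneg {A B Δ : ℝ} (hA : 0 < A) (hΔ : 0 < Δ) (v : ℤ × ℤ) : 0 ≤ qd A B Δ v := by
  unfold qd; positivity

lemma qd_pos {A B Δ : ℝ} (hA : 0 < A) (hΔ : 0 < Δ) (v : ℤ × ℤ) (hv : v ≠ 0) :
    0 < qd A B Δ v := by
  unfold qd
  refine div_pos ?_ (by positivity)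
  by_cases h : v.2 = 0
  · have h1 : v.1 ≠ 0 := by
      intro h1
      exact hv (Prod.ext h1 h)
    have h1' : (v.1 : ℝ) ≠ 0 := by exact_mod_cast h1
    have h2 : 2 * A * v.1 + B * v.2 ≠ 0 := by
      rw [h]; simp only [Int.cast_zero, mul_zero, add_zero]
      positivity
    positivity
  · have h' : (v.2 : ℝ) ≠ 0 := by exact_mod_cast h
    positivity

lemma qd_val (Q : QF) (v : ℤ × ℤ) (hQ : 0 < Q.1) :
    qd Q.1 Q.2.1 (dsc Q) v = val Q v := by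
  have hQ' : (0 : ℝ) < Q.1 := by exact_mod_cast hQ
  unfold qd dsc val
  rw [div_eq_iff (by positivity)]
  push_cast
  ring

lemma qd_shift {A B Δ : ℝ} (v : ℤ × ℤ) :
    qd A (B + 2 * A) Δ v = qd A B Δ (v.1 + v.2, v.2) := by
  unfold qd
  push_cast
  ring

/-- the shear -/
def shr : ℤ × ℤ ≃ ℤ × ℤ where
  toFun v := (v.1 + v.2, v.2)
  invFun v := (v.1 - v.2, v.2)
  left_inv v := by simp
  right_inv v := by simp

lemma zf_shift (A B Δ : ℝ) : zf A (B + 2 * A) Δ = zf A B Δ := by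
  unfold zf
  rw [← shr.tsum_eq (fun v => Vk (qd A B Δ v / Real.sqrt Δ) / Real.sqrt (qd A B Δ v))]
  refine tsum_congr fun v => ?_
  rw [qd_shift]
  rfl

lemma zq_val (Q : QF) (hQ : 0 < Q.1) :
    zq Q = ∑' v : ℤ × ℤ, Vk (val Q v / Real.sqrt (dsc Q)) / Real.sqrt (val Q v) := by
  unfold zq zf
  exact tsum_congr fun v => by rw [qd_val Q v hQ]

/-- QDV -/
theorem pf_QDV (hACT : T_ACT) : T_QDV := by
  refine ⟨fun A B Δ v hA hΔ => ⟨qd_nonneg hA hΔ v, qd_pos hA hΔ v⟩, qd_val,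
    fun A B Δ v _ => qd_shift v, fun A B Δ _ => zf_shift A B Δ, fun Q g hQ hD => ?_⟩
  have hFD : act Q g ∈ FD (dsc Q).toNat :=
    ((hACT Q g 1 0).2.2.2.2.2 (dsc Q).toNat (by omega) ⟨hQ, by omega⟩).1
  rw [zq_val Q hQ, zq_val _ hFD.1]
  have h1 : ∀ v, gv g (gv g⁻¹ v) = v := fun v => by
    rw [← (hACT Q g g⁻¹ v).2.2.2.2.1, mul_inv_cancel]
    simp [gv]
  have h2 : ∀ v, gv g⁻¹ (gv g v) = v := fun v => by
    rw [← (hACT Q g⁻¹ g v).2.2.2.2.1, inv_mul_cancel]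
    simp [gv]
  let e : ℤ × ℤ ≃ ℤ × ℤ := ⟨gv g, gv g⁻¹, h2, h1⟩
  rw [← e.tsum_eq (fun v => Vk (val Q v / Real.sqrt (dsc Q)) / Real.sqrt (val Q v))]
  refine tsum_congr fun v => ?_
  rw [(hACT Q g 1 v).1, (hACT Q g 1 v).2.1]
  rfl

end Pool.Agent.H3.CN
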